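import Pool.Agent.Helper48.CR.Goals

/-!
# GEN
-/

set_option autoImplicit false

open Finset Filter Topology MeasureTheory ProbabilityTheory
open Pool.Agent.Helper60.BFT (root cls Av Adapted Uni LAWG Av_congr)
open Pool.Agent.Helper48.CR

namespace Pool.Agent.Helper90.CR

theorem avS_congr (S : Finset ℕ) (f g : (ℕ → ℕ) → ℝ) (a : ℕ → ℕ)
    (h : ∀ b : ℕ → ℕ, (∀ q, q ∉ S → b q = a q) → f b = g b) : AvS S f a = AvS S g a := by
  unfold AvS
  apply Av_congr
  intro b hb
  exact h b (fun q hq => hb q (by rwa [Finset.mem_toList]))

theorem avS_zero (S : Finset ℕ) (a : ℕ → ℕ) : AvS S (fun _ => 0) a = 0 := by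
  unfold AvS
  have := Helper60.BFT.Av_mul_left S.toList 0 (fun _ => 0) a
  simpa using this

theorem mod_iff {p s c : ℕ} (hc : c < p) : s ≡ c [MOD p] ↔ s % p = c := by
  unfold Nat.ModEq
  rw [Nat.mod_eq_of_lt hc]

theorem card_img (p : ℕ) (W : Finset ℕ) (hW : ∀ x ∈ W, ∀ x' ∈ W, x ≡ x' [MOD p] → x = x') :
    (W.image (fun x => x % p)).card = W.card :=
  Finset.card_image_of_injOn (fun x hx x' hx' h => hW x hx x' hx' h)

open Classical in
theorem ev_eq {Sk S U T Sk' S' U' T' : Finset ℕ} {b : ℕ → ℕ}
    (h : ((∀ p ∈ S, ∀ s ∈ U, ¬ s ≡ b p [MOD p]) ∧ (∀ x ∈ T, ∃ p ∈ Sk, x ≡ b p [MOD p])) ↔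
      ((∀ p ∈ S', ∀ s ∈ U', ¬ s ≡ b p [MOD p]) ∧ (∀ x ∈ T', ∃ p ∈ Sk', x ≡ b p [MOD p]))) :
    ev Sk S U T b = ev Sk' S' U' T' b := by
  unfold ev
  by_cases h0 : ((∀ p ∈ S, ∀ s ∈ U, ¬ s ≡ b p [MOD p]) ∧ (∀ x ∈ T, ∃ p ∈ Sk, x ≡ b p [MOD p]))
  · rw [if_pos h0, if_pos (h.1 h0)]
  · rw [if_neg h0, if_neg (fun h1 => h0 (h.2 h1))]

open Classical in
theorem gen (h1 : AVPG) (h2 : FB2G) : GENG := by
  intro S
  induction S using Finset.induction_on with
  | empty =>
    intro Sk hSk U T hUT _ a
    have hSk' : Sk = ∅ := Finset.subset_empty.1 hSk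
    subst hSk'
    rw [h1.2.1, h2.2.1]
    unfold ev
    by_cases hT : T = ∅
    · subst hT
      simp
    · obtain ⟨x, hx⟩ := Finset.nonempty_iff_ne_empty.2 hT
      have h3 : T.card ≠ 0 := by
        rw [Ne, Finset.card_eq_zero]
        exact hT
      rw [if_neg h3, if_neg]
      · simp
      · rintro ⟨-, h4⟩
        obtain ⟨q, hq, -⟩ := h4 x hx
        simp at hq
  | insert p S' hp ih =>
    intro Sk hSk U T hUT hinj a
    rw [h1.2.2.1 S' p hp]
    have hSk' : Sk.erase p ⊆ S' := by
      intro q hq
      rw [Finset.mem_erase] at hq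
      have := hSk hq.2
      rw [Finset.mem_insert] at this
      exact this.resolve_left hq.1
    obtain ⟨hUp, hWp⟩ := hinj p (by simp)
    have hp0 : 0 < p := by omega
    -- consequences of the induction hypothesis
    have ihT : ∀ T' : Finset ℕ, T' ⊆ T → ∀ a' : ℕ → ℕ, AvS S' (ev (Sk.erase p) S' U T') a'
        = (∏ p ∈ S', (1 - (U.card : ℝ) / (p : ℝ))) * FS (fu U.card) (Sk.erase p) T'.card := by
      intro T' hT' a'
      apply ih (Sk.erase p) hSk' U T' (hUT.mono_right hT')
      intro q hq
      obtain ⟨h3, h4⟩ := hinj q (Finset.mem_insert_of_mem hq)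
      refine ⟨h3, fun x hx x' hx' h5 => h4 x ?_ x' ?_ h5⟩
      · rw [Finset.mem_union] at hx ⊢
        exact hx.imp id (fun h => hT' h)
      · rw [Finset.mem_union] at hx' ⊢
        exact hx'.imp id (fun h => hT' h)
    set P : ℝ := ∏ p ∈ S', (1 - (U.card : ℝ) / (p : ℝ)) with hP
    set k : ℕ := U.card with hk
    set j : ℕ := T.card with hj
    set F : ℕ → ℝ := fun i => FS (fu k) (Sk.erase p) i with hF
    set IU : Finset ℕ := U.image (fun x => x % p) with hIU
    set IT : Finset ℕ := T.image (fun x => x % p) with hIT
    have hdisj : ∀ c, c ∈ IT → c ∉ IU := by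
      intro c hc hc'
      rw [hIT, Finset.mem_image] at hc
      rw [hIU, Finset.mem_image] at hc'
      obtain ⟨x, hx, hxc⟩ := hc
      obtain ⟨u, hu, huc⟩ := hc'
      have h3 : x = u := hWp x (by simp [hx]) u (by simp [hu]) (by
        unfold Nat.ModEq
        rw [hxc, huc])
      subst h3
      exact (Finset.disjoint_left.1 hUT hu hx)
    -- value of the average for each class
    have hval : ∀ c ∈ range p, AvS S' (ev Sk (insert p S') U T) (Function.update a p c)
        = P * F j - (if c ∈ IU then P * F j else 0)
          + (if c ∈ IT then (if p ∈ Sk then P * F (j - 1) - P * F j else 0) else 0) := by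
      intro c hc
      have hc' : c < p := mem_range.1 hc
      by_cases hU : c ∈ IU
      · have hT : c ∉ IT := fun h => hdisj c h hU
        rw [if_pos hU, if_neg hT]
        rw [hIU, Finset.mem_image] at hU
        obtain ⟨u, hu, huc⟩ := hU
        rw [avS_congr S' _ (fun _ => 0), avS_zero]
        · ring
        · intro b hb
          have hbp : b p = c := by rw [hb p hp, Function.update_self]
          unfold ev
          rw [if_neg]
          rintro ⟨h3, -⟩
          apply h3 p (by simp) u hu
          rw [hbp]
          exact (mod_iff hc').2 huc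
      · rw [if_neg hU]
        have hUc : ∀ s ∈ U, ¬ s ≡ c [MOD p] := by
          intro s hs h3
          apply hU
          rw [hIU, Finset.mem_image]
          exact ⟨s, hs, (mod_iff hc').1 h3⟩
        by_cases hTS : c ∈ IT ∧ p ∈ Sk
        · obtain ⟨hT, hpSk⟩ := hTS
          rw [if_pos hT, if_pos hpSk]
          rw [hIT, Finset.mem_image] at hT
          obtain ⟨x, hx, hxc⟩ := hT
          rw [avS_congr S' _ (ev (Sk.erase p) S' U (T.erase x)),
            ihT (T.erase x) (Finset.erase_subset _ _), Finset.card_erase_of_mem hx]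
          · ring
          · intro b hb
            have hbp : b p = c := by rw [hb p hp, Function.update_self]
            apply ev_eq
            constructor
            · rintro ⟨h3, h4⟩
              refine ⟨fun q hq => h3 q (Finset.mem_insert_of_mem hq), ?_⟩
              intro y hy
              rw [Finset.mem_erase] at hy
              obtain ⟨q, hq, hyq⟩ := h4 y hy.2
              refine ⟨q, ?_, hyq⟩
              rw [Finset.mem_erase]
              refine ⟨?_, hq⟩
              rintro rfl
              apply hy.1
              apply hWp y (by simp [hy.2]) x (by simp [hx])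
              rw [hbp, mod_iff hc'] at hyq
              unfold Nat.ModEq
              rw [hyq, hxc]
            · rintro ⟨h3, h4⟩
              constructor
              · intro q hq s hs
                rcases Finset.mem_insert.1 hq with rfl | hq
                · rw [hbp]
                  exact hUc s hs
                · exact h3 q hq s hs
              · intro y hy
                by_cases hyx : y = x
                · subst hyx
                  refine ⟨p, hpSk, ?_⟩
                  rw [hbp, mod_iff hc']
                  exact hxc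
                · obtain ⟨q, hq, hyq⟩ := h4 y (Finset.mem_erase.2 ⟨hyx, hy⟩)
                  exact ⟨q, Finset.mem_of_mem_erase hq, hyq⟩
        · have h5 : (if c ∈ IT then (if p ∈ Sk then P * F (j - 1) - P * F j else 0) else 0) = 0 := by
            by_cases h6 : c ∈ IT
            · rw [if_pos h6, if_neg (fun h7 => hTS ⟨h6, h7⟩)]
            · rw [if_neg h6]
          rw [h5, avS_congr S' _ (ev (Sk.erase p) S' U T), ihT T (Finset.Subset.refl _)]
          · ring
          · intro b hb
            have hbp : b p = c := by rw [hb p hp, Function.update_self]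
            apply ev_eq
            constructor
            · rintro ⟨h3, h4⟩
              refine ⟨fun q hq => h3 q (Finset.mem_insert_of_mem hq), ?_⟩
              intro y hy
              obtain ⟨q, hq, hyq⟩ := h4 y hy
              refine ⟨q, ?_, hyq⟩
              rw [Finset.mem_erase]
              refine ⟨?_, hq⟩
              rintro rfl
              apply hTS
              refine ⟨?_, hq⟩
              rw [hbp, mod_iff hc'] at hyq
              rw [hIT, Finset.mem_image]
              exact ⟨y, hy, hyq⟩
            · rintro ⟨h3, h4⟩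
              constructor
              · intro q hq s hs
                rcases Finset.mem_insert.1 hq with rfl | hq
                · rw [hbp]
                  exact hUc s hs
                · exact h3 q hq s hs
              · intro y hy
                obtain ⟨q, hq, hyq⟩ := h4 y hy
                exact ⟨q, Finset.mem_of_mem_erase hq, hyq⟩
    rw [Finset.sum_congr rfl hval, Finset.sum_add_distrib, Finset.sum_sub_distrib]
    have hsubU : IU ⊆ range p := by
      intro c hc
      rw [hIU, Finset.mem_image] at hc
      obtain ⟨x, _, rfl⟩ := hc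
      exact mem_range.2 (Nat.mod_lt _ hp0)
    have hsubT : IT ⊆ range p := by
      intro c hc
      rw [hIT, Finset.mem_image] at hc
      obtain ⟨x, _, rfl⟩ := hc
      exact mem_range.2 (Nat.mod_lt _ hp0)
    have hcU : IU.card = k := card_img p U (fun x hx x' hx' => hWp x (by simp [hx]) x' (by simp [hx']))
    have hcT : IT.card = j := card_img p T (fun x hx x' hx' => hWp x (by simp [hx]) x' (by simp [hx']))
    have s1 : ∀ v : ℝ, ∑ c ∈ range p, (if c ∈ IU then v else 0) = k * v := by
      intro v
      rw [← Finset.sum_filter, Finset.filter_mem_eq_inter, Finset.inter_eq_right.2 hsubU,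
        Finset.sum_const, nsmul_eq_mul, hcU]
    have s2 : ∀ v : ℝ, ∑ c ∈ range p, (if c ∈ IT then v else 0) = j * v := by
      intro v
      rw [← Finset.sum_filter, Finset.filter_mem_eq_inter, Finset.inter_eq_right.2 hsubT,
        Finset.sum_const, nsmul_eq_mul, hcT]
    rw [s1, s2, Finset.sum_const, Finset.card_range, nsmul_eq_mul, Finset.prod_insert hp]
    have hpk : ((p : ℝ) - k) ≠ 0 := by
      have : (k : ℝ) < p := by exact_mod_cast hUp
      exact ne_of_gt (by linarith)
    have hpp : (p : ℝ) ≠ 0 := by exact_mod_cast hp0.ne'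
    by_cases hpSk : p ∈ Sk
    · rw [if_pos hpSk]
      have h7 : Sk = insert p (Sk.erase p) := (Finset.insert_erase hpSk).symm
      have h8 : FS (fu k) Sk j = (1 - j * fu k p) * F j + j * fu k p * F (j - 1) := by
        conv_lhs => rw [h7]
        exact h2.2.2 (fu k) (Sk.erase p) p j (by simp)
      rw [h8, ← hP]
      unfold fu
      field_simp
      ring
    · rw [if_neg hpSk]
      have h7 : Sk.erase p = Sk := Finset.erase_eq_of_notMem hpSk
      have h8 : FS (fu k) Sk j = F j := by
        rw [hF]
        simp only [h7]
      rw [h8, ← hP]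
      field_simp
      ring

end Pool.Agent.Helper90.CR
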